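import Mathlib
import Pool.Agent.Helper227.KC2
import Pool.Agent.Helper227.Mach
import Pool.Agent.Helper227.Univ
import Pool.Agent.H561R3.Om.Meas

set_option autoImplicit false

namespace Pool.Agent.H561R3.LR

open Encodable Pool.Agent.Helper227 Pool.Agent.H561R3

open Classical

abbrev Str := List Bool
abbrev PR := List Bool × List Bool
abbrev HL := List (List Bool × PR)

/-- weight (numerator) fed to `p` -/
noncomputable def W (H : HL) (p : PR) (N : ℕ) : ℕ :=
  (H.map (fun x => if x.2 = p then 2 ^ (N - x.1.length) else 0)).sum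

noncomputable def wR (H : HL) (p : PR) : ℝ :=
  (H.map (fun x => if x.2 = p then (1 / 2 : ℝ) ^ x.1.length else 0)).sum

theorem W_eq (H : HL) (p : PR) (N : ℕ) (h : ∀ x ∈ H, x.1.length ≤ N) :
    (W H p N : ℝ) = 2 ^ N * wR H p := by
  induction H with
  | nil => simp [W, wR]
  | cons x H ih =>
    have ih' := ih fun y hy => h y (List.mem_cons_of_mem _ hy)
    have hx := h x List.mem_cons_self
    unfold W wR at ih' ⊢
    rw [List.map_cons, List.sum_cons, List.map_cons, List.sum_cons, Nat.cast_add, ih', mul_add]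
    congr 1
    split_ifs with hp
    · push_cast
      rw [pow_sub₀ _ (by norm_num) hx, one_div, inv_pow]
    · simp

theorem wR_nonneg (H : HL) (p : PR) : 0 ≤ wR H p := by
  unfold wR
  refine List.sum_nonneg ?_
  intro y hy
  rw [List.mem_map] at hy
  obtain ⟨x, _, rfl⟩ := hy
  split_ifs <;> positivity

theorem wR_append (H H' : HL) (p : PR) : wR (H ++ H') p = wR H p + wR H' p := by
  unfold wR; rw [List.map_append, List.sum_append]

theorem wR_single (z : Str) (p p' : PR) : wR [(z, p')] p = if p' = p then (1 / 2 : ℝ) ^ z.length else 0 := by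
  unfold wR; simp

theorem sum_wR (H : HL) (P : Finset PR) :
    ∑ p ∈ P, wR H p ≤ (H.map (fun x => (1 / 2 : ℝ) ^ x.1.length)).sum := by
  induction H with
  | nil => simp [wR]
  | cons x H ih =>
    have h1 : ∀ p, wR (x :: H) p = (if x.2 = p then (1 / 2 : ℝ) ^ x.1.length else 0) + wR H p := by
      intro p; unfold wR; rw [List.map_cons, List.sum_cons]
    simp only [h1]
    rw [Finset.sum_add_distrib, List.map_cons, List.sum_cons]
    refine add_le_add ?_ ih
    rw [Finset.sum_ite_eq]
    split_ifs
    · exact le_rfl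
    · positivity

variable (q1 : Str × ℕ → ℕ → Prop) (rho : Str → Str → Prop)

/-- the pair `p` accepts the string `z` -/
def CC (d : ℕ) (H : HL) (z : Str) (p : PR) : Prop :=
  q1 (p.1, p.2.length) z.length ∧ rho z p.2 ∧ p.1.length + d ≤ z.length ∧
    W H p z.length < 2 ^ (z.length - (p.1.length + d))

noncomputable def pick (d : ℕ) (H : HL) (z : Str) : Option PR :=
  (Om.cand PR z.length)[(Om.cand PR z.length).findIdx (fun p => decide (CC q1 rho d H z p))]?

noncomputable def stepH (d : ℕ) (H : HL) (z : Str) : HL :=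
  if ∃ x ∈ H, x.1 <+: z then H else
    Option.casesOn (pick q1 rho d H z) H (fun p => H ++ [(z, p)])

theorem stepH_cases (d : ℕ) (H : HL) (z : Str) : stepH q1 rho d H z = H ∨
    ∃ p, stepH q1 rho d H z = H ++ [(z, p)] ∧ CC q1 rho d H z p ∧ ¬ ∃ x ∈ H, x.1 <+: z := by
  unfold stepH
  by_cases h : ∃ x ∈ H, x.1 <+: z
  · left; rw [if_pos h]
  · rw [if_neg h]
    rcases hp : pick q1 rho d H z with _ | p
    · left; rfl
    · right
      refine ⟨p, rfl, ?_, h⟩
      unfold pick at hp
      rw [List.getElem?_eq_some_iff] at hp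
      obtain ⟨h1, h2⟩ := hp
      have h3 := List.findIdx_getElem (w := h1)
      rw [h2] at h3
      simpa using h3

theorem stepH_pos (d : ℕ) (H : HL) (z : Str) (h : ¬ ∃ x ∈ H, x.1 <+: z)
    (hp : ∃ p ∈ Om.cand PR z.length, CC q1 rho d H z p) :
    ∃ p, stepH q1 rho d H z = H ++ [(z, p)] ∧ CC q1 rho d H z p := by
  have h1 : (Om.cand PR z.length).findIdx (fun p => decide (CC q1 rho d H z p)) <
      (Om.cand PR z.length).length := by
    rw [List.findIdx_lt_length]
    obtain ⟨p, h2, h3⟩ := hp
    exact ⟨p, h2, by simpa using h3⟩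
  have h3 := List.findIdx_getElem (w := h1)
  refine ⟨(Om.cand PR z.length)[(Om.cand PR z.length).findIdx
    (fun p => decide (CC q1 rho d H z p))], ?_, by simpa using h3⟩
  unfold stepH
  rw [if_neg h]
  have h4 : pick q1 rho d H z = some (Om.cand PR z.length)[(Om.cand PR z.length).findIdx
    (fun p => decide (CC q1 rho d H z p))] := by
    unfold pick
    exact List.getElem?_eq_getElem h1
  rw [h4]

/-- the history after processing the list `l` of strings -/
noncomputable def RR (d : ℕ) (l : List Str) : HL := l.foldl (stepH q1 rho d) []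

theorem RR_snoc (d : ℕ) (l : List Str) (z : Str) :
    RR q1 rho d (l ++ [z]) = stepH q1 rho d (RR q1 rho d l) z := by
  unfold RR; rw [List.foldl_append]; rfl

/-- admissible lists of strings -/
def OKl (l : List Str) : Prop := l.Pairwise fun a b => a.length ≤ b.length ∧ ¬ b <+: a

theorem OKl_snoc {l : List Str} {z : Str} (h : OKl (l ++ [z])) :
    OKl l ∧ ∀ a ∈ l, a.length ≤ z.length ∧ ¬ z <+: a := by
  unfold OKl at h ⊢
  rw [List.pairwise_append] at h
  exact ⟨h.1, fun a ha => h.2.2 a ha z (by simp)⟩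

structure Inv (d : ℕ) (l : List Str) (H : HL) : Prop where
  i1 : ∀ x ∈ H, x.1 ∈ l
  i2 : H.Pairwise fun x y => ¬ x.1 <+: y.1 ∧ ¬ y.1 <+: x.1
  i3 : ∀ x ∈ H, q1 (x.2.1, x.2.2.length) x.1.length ∧ rho x.1 x.2.2
  i4 : ∀ p, wR H p ≤ (1 / 2 : ℝ) ^ (p.1.length + d)

theorem inv_RR (d : ℕ) (l : List Str) (hl : OKl l) : Inv q1 rho d l (RR q1 rho d l) := by
  induction l using List.reverseRecOn with
  | nil => exact ⟨by simp [RR], by simp [RR], by simp [RR], fun p => by simp [RR, wR]⟩
  | append_singleton l z ih =>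
    obtain ⟨hl1, hl2⟩ := OKl_snoc hl
    have I := ih hl1
    rw [RR_snoc]
    rcases stepH_cases q1 rho d (RR q1 rho d l) z with h | ⟨p, h, hC, hno⟩
    · rw [h]
      exact ⟨fun x hx => List.mem_append_left _ (I.i1 x hx), I.i2, I.i3, I.i4⟩
    · rw [h]
      refine ⟨?_, ?_, ?_, ?_⟩
      · intro x hx
        rcases List.mem_append.1 hx with hx | hx
        · exact List.mem_append_left _ (I.i1 x hx)
        · rw [List.mem_singleton] at hx
          subst hx
          simp
      · rw [List.pairwise_append]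
        refine ⟨I.i2, by simp, ?_⟩
        intro x hx y hy
        rw [List.mem_singleton] at hy
        subst hy
        exact ⟨fun h' => hno ⟨x, hx, h'⟩, (hl2 _ (I.i1 x hx)).2⟩
      · intro x hx
        rcases List.mem_append.1 hx with hx | hx
        · exact I.i3 x hx
        · rw [List.mem_singleton] at hx
          subst hx
          exact ⟨hC.1, hC.2.1⟩
      · intro p'
        rw [wR_append, wR_single]
        split_ifs with hp
        · subst hp
          have h1 := hC.2.2.1
          have h2 := hC.2.2.2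
          have h3 := W_eq (RR q1 rho d l) p z.length fun x hx => (hl2 _ (I.i1 x hx)).1
          have h4 : (W (RR q1 rho d l) p z.length : ℝ) + 1 ≤ 2 ^ (z.length - (p.1.length + d)) := by
            exact_mod_cast h2
          rw [h3, pow_sub₀ _ (by norm_num) h1] at h4
          have h5 : (0 : ℝ) < 2 ^ z.length := by positivity
          rw [one_div, inv_pow, inv_pow]
          have h6 : (2 ^ z.length : ℝ) * (wR (RR q1 rho d l) p + (2 ^ z.length)⁻¹) ≤
              2 ^ z.length * (2 ^ (p.1.length + d))⁻¹ := by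
            rw [mul_add, mul_inv_cancel₀ h5.ne']; exact h4
          exact le_of_mul_le_mul_left h6 h5
        · rw [add_zero]; exact I.i4 p'

/-- the strings of length below `s`, in order of length -/
def LL (s : ℕ) : List Str := (List.range s).flatMap strs

theorem LL_succ (s : ℕ) : LL (s + 1) = LL s ++ strs s := by
  unfold LL; rw [List.range_succ, List.flatMap_append]; simp

theorem mem_LL {s : ℕ} {z : Str} : z ∈ LL s ↔ z.length < s := by
  unfold LL
  simp [List.mem_flatMap, mem_strs]

theorem OKl_of {l : List Str} (h1 : l.Nodup) (h2 : l.Pairwise fun a b => a.length ≤ b.length) :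
    OKl l := by
  unfold OKl
  refine (h1.and h2).imp ?_
  rintro a b ⟨hne, hle⟩
  refine ⟨hle, fun h => hne ?_⟩
  exact (h.eq_of_length (le_antisymm h.length_le hle)).symm

theorem nodup_LL (s : ℕ) : (LL s).Nodup := by
  induction s with
  | zero => simp [LL]
  | succ s ih =>
    rw [LL_succ, List.nodup_append]
    refine ⟨ih, nodup_strs s, ?_⟩
    intro a ha b hb hab
    subst hab
    rw [mem_LL] at ha
    rw [mem_strs] at hb
    omega

theorem sorted_LL (s : ℕ) : (LL s).Pairwise fun a b => a.length ≤ b.length := by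
  induction s with
  | zero => simp [LL]
  | succ s ih =>
    rw [LL_succ, List.pairwise_append]
    refine ⟨ih, ?_, ?_⟩
    · rw [List.pairwise_iff_forall_sublist]
      intro a b hab
      have ha : a ∈ strs s := hab.subset (by simp)
      have hb : b ∈ strs s := hab.subset (by simp)
      rw [mem_strs] at ha hb
      omega
    · intro a ha b hb
      rw [mem_LL] at ha
      rw [mem_strs] at hb
      omega

theorem OKl_LL (s : ℕ) : OKl (LL s) := OKl_of (nodup_LL s) (sorted_LL s)

theorem OKl_prefix {l l' : List Str} (h : OKl l') (hp : l <+: l') : OKl l := by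
  unfold OKl at h ⊢
  exact h.sublist hp.sublist

/-- the history at stage `s` -/
noncomputable def Hs (d s : ℕ) : HL := RR q1 rho d (LL s)

theorem RR_prefix (d : ℕ) {l l' : List Str} (h : l <+: l') : RR q1 rho d l <+: RR q1 rho d l' := by
  obtain ⟨t, rfl⟩ := h
  induction t using List.reverseRecOn with
  | nil => simp
  | append_singleton t z ih =>
    rw [← List.append_assoc, RR_snoc]
    rcases stepH_cases q1 rho d (RR q1 rho d (l ++ t)) z with h | ⟨p, h, _, _⟩
    · rw [h]; exact ih
    · rw [h]; exact ih.trans (List.prefix_append _ _)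

theorem LL_prefix {s t : ℕ} (h : s ≤ t) : LL s <+: LL t := by
  induction t, h using Nat.le_induction with
  | base => exact List.prefix_refl _
  | succ t _ ih => rw [LL_succ]; exact ih.trans (List.prefix_append _ _)

theorem wR_mono (p : PR) {H H' : HL} (h : H <+: H') : wR H p ≤ wR H' p := by
  obtain ⟨t, rfl⟩ := h
  rw [wR_append]
  have := wR_nonneg t p
  linarith

theorem Hs_len {d s : ℕ} {x : Str × PR} (hx : x ∈ Hs q1 rho d s) : x.1.length < s :=
  mem_LL.1 ((inv_RR q1 rho d _ (OKl_LL s)).i1 x hx)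

/-- `p` is full at stage `s` -/
def full (d s : ℕ) (p : PR) : Prop :=
  p.1.length + d ≤ s ∧ 2 ^ (s - (p.1.length + d)) ≤ W (Hs q1 rho d s) p s

theorem full_iff (d s : ℕ) (p : PR) : full q1 rho d s p ↔ p.1.length + d ≤ s ∧
    (1 / 2 : ℝ) ^ (p.1.length + d) ≤ wR (Hs q1 rho d s) p := by
  unfold full
  refine and_congr_right fun h => ?_
  have h1 := W_eq (Hs q1 rho d s) p s fun x hx => (Hs_len q1 rho hx).le
  have h2 : (0 : ℝ) < 2 ^ s := by positivity
  have h3 : 2 ^ (s - (p.1.length + d)) ≤ W (Hs q1 rho d s) p s ↔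
      ((2 : ℝ) ^ (s - (p.1.length + d))) ≤ (W (Hs q1 rho d s) p s : ℝ) := by
    exact_mod_cast Iff.rfl
  rw [h3, h1, pow_sub₀ _ (by norm_num) h, one_div, inv_pow]
  exact mul_le_mul_iff_right₀ h2

theorem full_mono {d s t : ℕ} {p : PR} (h : s ≤ t) (hf : full q1 rho d s p) :
    full q1 rho d t p := by
  rw [full_iff] at hf ⊢
  exact ⟨hf.1.trans h, hf.2.trans (wR_mono p (RR_prefix q1 rho d (LL_prefix h)))⟩

theorem kraft_H (d s : ℕ) :
    ((Hs q1 rho d s).map (fun x => (1 / 2 : ℝ) ^ x.1.length)).sum ≤ 1 := by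
  have I := inv_RR q1 rho d _ (OKl_LL s)
  have hnd : ((Hs q1 rho d s).map Prod.fst).Nodup := by
    unfold List.Nodup
    rw [List.pairwise_map]
    refine I.i2.imp ?_
    intro a b h hab
    exact h.1 (by rw [hab])
  have h1 := Om.kraft ((Hs q1 rho d s).map Prod.fst).toFinset (by
    intro p hp q hq hpq
    rw [List.mem_toFinset, List.mem_map] at hp hq
    obtain ⟨x, hx, rfl⟩ := hp
    obtain ⟨y, hy, rfl⟩ := hq
    by_contra hne
    have hxy : x ≠ y := fun h => hne (by rw [h])
    haveI : Std.Symm (fun x y : Str × PR => ¬ x.1 <+: y.1 ∧ ¬ y.1 <+: x.1) :=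
      ⟨fun a b h => ⟨h.2, h.1⟩⟩
    have := I.i2.forall hx hy hxy
    exact this.1 hpq)
  rw [List.sum_toFinset _ hnd, List.map_map] at h1
  exact h1

/-- the requests -/
noncomputable def req (d : ℕ) (i : ℕ) : Option (ℕ × Str) :=
  Option.casesOn (decode₂ (ℕ × PR) i) none fun x =>
    if full q1 rho d (x.1 + 1) x.2 ∧ ¬ full q1 rho d x.1 x.2 then
      some (x.2.1.length + d, x.2.2) else none

theorem req_some {d i : ℕ} {r : ℕ × Str} (h : req q1 rho d i = some r) :
    ∃ s p, encode ((s, p) : ℕ × PR) = i ∧ full q1 rho d (s + 1) p ∧ ¬ full q1 rho d s p ∧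
      r = (p.1.length + d, p.2) := by
  unfold req at h
  rcases hd : decode₂ (ℕ × PR) i with _ | x
  · rw [hd] at h; cases h
  · rw [hd] at h
    simp only at h
    split_ifs at h with hf
    rw [Option.some.injEq] at h
    refine ⟨x.1, x.2, mem_decode₂.1 hd, hf.1, hf.2, h.symm⟩

theorem req_of {d s : ℕ} {p : PR} (h1 : full q1 rho d (s + 1) p) (h2 : ¬ full q1 rho d s p) :
    req q1 rho d (encode ((s, p) : ℕ × PR)) = some (p.1.length + d, p.2) := by
  unfold req
  have : decode₂ (ℕ × PR) (encode ((s, p) : ℕ × PR)) = some (s, p) := mem_decode₂.2 rfl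
  rw [this]
  simp only
  rw [if_pos ⟨h1, h2⟩]

theorem exists_first {d s : ℕ} {p : PR} (h : full q1 rho d s p) :
    ∃ t, full q1 rho d (t + 1) p ∧ ¬ full q1 rho d t p := by
  have h0 : ¬ full q1 rho d 0 p := by
    intro h0
    rw [full_iff] at h0
    have h2 : wR (Hs q1 rho d 0) p = 0 := by simp [Hs, LL, RR, wR]
    rw [h2] at h0
    have : (0 : ℝ) < (1 / 2 : ℝ) ^ (p.1.length + d) := by positivity
    linarith [h0.2]
  induction s with
  | zero => exact absurd h h0
  | succ s ih =>
    by_cases hs : full q1 rho d s p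
    · exact ih hs
    · exact ⟨s, h, hs⟩

theorem req_bound (d n : ℕ) : ∑ i ∈ Finset.range n, KC.wr (req q1 rho d) i ≤ 1 := by
  -- restrict to the indices with a request
  have h1 : ∑ i ∈ Finset.range n, KC.wr (req q1 rho d) i =
      ∑ i ∈ (Finset.range n).filter (fun i => (req q1 rho d i).isSome), KC.wr (req q1 rho d) i := by
    rw [Finset.sum_filter]
    refine Finset.sum_congr rfl fun i _ => ?_
    split_ifs with h
    · rfl
    · unfold KC.wr
      rcases hr : req q1 rho d i with _ | r
      · rfl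
      · rw [hr] at h; exact absurd rfl h
  rw [h1]
  -- the pair attached to an index
  let g : ℕ → PR := fun i => ((decode₂ (ℕ × PR) i).getD (0, ([], []))).2
  have hg : ∀ i, (req q1 rho d i).isSome → ∃ s, encode ((s, g i) : ℕ × PR) = i ∧
      full q1 rho d (s + 1) (g i) ∧ ¬ full q1 rho d s (g i) ∧
      KC.wr (req q1 rho d) i = (1 / 2 : ℝ) ^ ((g i).1.length + d) := by
    intro i hi
    obtain ⟨r, hr⟩ := Option.isSome_iff_exists.1 hi
    obtain ⟨s, p, h2, h3, h4, h5⟩ := req_some q1 rho hr
    have hgi : g i = p := by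
      simp only [g]
      have : decode₂ (ℕ × PR) i = some (s, p) := mem_decode₂.2 h2
      rw [this]; rfl
    refine ⟨s, by rw [hgi]; exact h2, by rw [hgi]; exact h3, by rw [hgi]; exact h4, ?_⟩
    unfold KC.wr
    rw [hr, h5, hgi]
    rfl
  have hinj : Set.InjOn g ((Finset.range n).filter (fun i => (req q1 rho d i).isSome) : Finset ℕ) := by
    intro i hi j hj hij
    rw [Finset.mem_coe, Finset.mem_filter] at hi hj
    obtain ⟨s, hs1, hs2, hs3, _⟩ := hg i hi.2
    obtain ⟨t, ht1, ht2, ht3, _⟩ := hg j hj.2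
    rw [← hs1, ← ht1, hij]
    rcases Nat.lt_trichotomy s t with h | h | h
    · exfalso
      rw [hij] at hs2
      exact ht3 (full_mono q1 rho h hs2)
    · rw [h]
    · exfalso
      rw [← hij] at ht2
      exact hs3 (full_mono q1 rho h ht2)
  have h2 : ∀ i ∈ (Finset.range n).filter (fun i => (req q1 rho d i).isSome),
      KC.wr (req q1 rho d) i ≤ wR (Hs q1 rho d n) (g i) := by
    intro i hi
    rw [Finset.mem_filter, Finset.mem_range] at hi
    obtain ⟨s, hs1, hs2, hs3, hs4⟩ := hg i hi.2
    rw [hs4]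
    have hsi : s ≤ i := by
      rw [← hs1]
      simp only [encode_prod_val, encode_nat]
      exact Nat.left_le_pair _ _
    exact ((full_iff q1 rho d n (g i)).1 (full_mono q1 rho (by omega) hs2)).2
  refine (Finset.sum_le_sum h2).trans ?_
  rw [← Finset.sum_image (f := fun p => wR (Hs q1 rho d n) p) hinj]
  exact (sum_wR _ _).trans (kraft_H q1 rho d n)

end Pool.Agent.H561R3.LR
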