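import Mathlib
import Pool.Agent.H561R3.LR.Hungry

set_option autoImplicit false

namespace Pool.Agent.H561R3.LR

open Encodable Pool.Agent.Helper227 Pool.Agent.H561R3 MeasureTheory
open scoped ENNReal

open Classical

section prim

variable {q1 : Str × ℕ → ℕ → Prop} {rho : Str → Str → Prop}

variable {α : Type} [Primcodable α]

theorem pr_W {H : α → HL} {p : α → PR} {N : α → ℕ} (hH : Primrec H) (hp : Primrec p)
    (hN : Primrec N) : Primrec fun a => W (H a) (p a) (N a) := by
  unfold W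
  refine pr_sum (f := H) (g := fun a x => if x.2 = p a then 2 ^ (N a - x.1.length) else 0) hH ?_
  refine Primrec.ite ?_ ?_ (Primrec.const 0)
  · exact Primrec.eq.comp (Primrec.snd.comp Primrec.snd) (hp.comp Primrec.fst)
  · exact pr_pow.comp (Primrec.const 2) (Primrec.nat_sub.comp (hN.comp Primrec.fst)
      (Primrec.list_length.comp (Primrec.fst.comp Primrec.snd)))

theorem pr_CC (hq : PrimrecRel q1) (hr : PrimrecRel rho) {d : α → ℕ} {H : α → HL} {z : α → Str}
    {p : α → PR} (hd : Primrec d) (hH : Primrec H) (hz : Primrec z) (hp : Primrec p) :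
    PrimrecPred fun a => CC q1 rho (d a) (H a) (z a) (p a) := by
  unfold CC
  have h1 : Primrec fun a => (p a).1.length + d a :=
    Primrec.nat_add.comp (Primrec.list_length.comp (Primrec.fst.comp hp)) hd
  have h2 : Primrec fun a => (z a).length := Primrec.list_length.comp hz
  refine PrimrecPred.and ?_ (PrimrecPred.and ?_ (PrimrecPred.and ?_ ?_))
  · exact hq.comp ((Primrec.fst.comp hp).pair (Primrec.list_length.comp (Primrec.snd.comp hp))) h2
  · exact hr.comp hz (Primrec.snd.comp hp)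
  · exact Primrec.nat_le.comp h1 h2
  · exact Primrec.nat_lt.comp (pr_W hH hp h2) (pr_pow.comp (Primrec.const 2)
      (Primrec.nat_sub.comp h2 h1))

theorem pr_pick (hq : PrimrecRel q1) (hr : PrimrecRel rho) {d : α → ℕ} {H : α → HL} {z : α → Str}
    (hd : Primrec d) (hH : Primrec H) (hz : Primrec z) :
    Primrec fun a => pick q1 rho (d a) (H a) (z a) := by
  unfold pick
  have h2 : Primrec fun a => Om.cand PR (z a).length :=
    (Om.pr_cand PR).comp (Primrec.list_length.comp hz)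
  refine Primrec.list_getElem?.comp h2 (Primrec.list_findIdx h2 ?_)
  exact (pr_CC hq hr (hd.comp Primrec.fst) (hH.comp Primrec.fst) (hz.comp Primrec.fst)
    Primrec.snd).decide

theorem pr_stepH (hq : PrimrecRel q1) (hr : PrimrecRel rho) {d : α → ℕ} {H : α → HL} {z : α → Str}
    (hd : Primrec d) (hH : Primrec H) (hz : Primrec z) :
    Primrec fun a => stepH q1 rho (d a) (H a) (z a) := by
  unfold stepH
  refine Primrec.ite ?_ hH ?_
  · refine PP.ex_mem (f := H) (p := fun a x => x.1 <+: z a) ?_ hH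
    exact Om.pr_isPre.comp ((Primrec.fst.comp Primrec.snd).pair (hz.comp Primrec.fst))
  · refine Primrec.option_casesOn (pr_pick hq hr hd hH hz) hH ?_
    exact Primrec.list_append.comp (hH.comp Primrec.fst) (Primrec.list_cons.comp
      ((hz.comp Primrec.fst).pair Primrec.snd) (Primrec.const []))

theorem pr_LL : Primrec LL := by
  unfold LL
  exact Primrec.list_flatMap Primrec.list_range (pr_strs.comp Primrec.snd).to₂

theorem pr_Hs (hq : PrimrecRel q1) (hr : PrimrecRel rho) : Primrec₂ (Hs q1 rho) := by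
  unfold Hs RR
  refine Primrec.list_foldl (f := fun x : ℕ × ℕ => LL x.2) (g := fun _ => ([] : HL))
    (h := fun x (y : HL × Str) => stepH q1 rho x.1 y.1 y.2) (pr_LL.comp Primrec.snd)
    (Primrec.const []) ?_
  exact pr_stepH hq hr (Primrec.fst.comp Primrec.fst) (Primrec.fst.comp Primrec.snd)
    (Primrec.snd.comp Primrec.snd)

theorem pr_full (hq : PrimrecRel q1) (hr : PrimrecRel rho) {d s : α → ℕ} {p : α → PR}
    (hd : Primrec d) (hs : Primrec s) (hp : Primrec p) :
    PrimrecPred fun a => full q1 rho (d a) (s a) (p a) := by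
  unfold full
  have h1 : Primrec fun a => (p a).1.length + d a :=
    Primrec.nat_add.comp (Primrec.list_length.comp (Primrec.fst.comp hp)) hd
  refine PrimrecPred.and ?_ ?_
  · exact Primrec.nat_le.comp h1 hs
  · exact Primrec.nat_le.comp (pr_pow.comp (Primrec.const 2) (Primrec.nat_sub.comp hs h1))
      (pr_W ((pr_Hs hq hr).comp hd hs) hp hs)

theorem pr_req (hq : PrimrecRel q1) (hr : PrimrecRel rho) (d : ℕ) : Primrec (req q1 rho d) := by
  unfold req
  refine Primrec.option_casesOn (Primrec.decode₂.comp Primrec.id) (Primrec.const none) ?_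
  have e : Primrec fun x : ℕ × (ℕ × PR) => x.2.2 := Primrec.snd.comp Primrec.snd
  refine Primrec.ite (PrimrecPred.and ?_ (PrimrecPred.not ?_)) ?_ (Primrec.const none)
  · exact pr_full hq hr (Primrec.const d) (Primrec.succ.comp (Primrec.fst.comp Primrec.snd)) e
  · exact pr_full hq hr (Primrec.const d) (Primrec.fst.comp Primrec.snd) e
  · exact Primrec.option_some.comp ((Primrec.nat_add.comp (Primrec.list_length.comp
      (Primrec.fst.comp e)) (Primrec.const d)).pair (Primrec.snd.comp e))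

end prim

section test

variable (q1 : Str × ℕ → ℕ → Prop) (rho : Str → Str → Prop)

/-- enumeration of the test relative to `A` -/
def TE (x : Str × ℕ × Str) : Prop := ∃ s, ∃ y ∈ Hs q1 rho x.2.1 s, y.1 = x.2.2 ∧ y.2.2 <+: x.1

variable {q1 rho}

theorem s1_TE (hq : PrimrecRel q1) (hr : PrimrecRel rho) : S1 (TE q1 rho) := by
  unfold TE
  refine S1.ex (α := Str × ℕ × Str) (β := ℕ) (p := fun x s => ∃ y ∈ Hs q1 rho x.2.1 s,
    y.1 = x.2.2 ∧ y.2.2 <+: x.1) (S1.of_prim ?_)
  refine PP.ex_mem (α := (Str × ℕ × Str) × ℕ) (f := fun x => Hs q1 rho x.1.2.1 x.2)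
    (p := fun x y => y.1 = x.1.2.2 ∧ y.2.2 <+: x.1.1) ?_ ?_
  · refine PrimrecPred.and ?_ ?_
    · exact Primrec.eq.comp (Primrec.fst.comp Primrec.snd)
        (Primrec.snd.comp (Primrec.snd.comp (Primrec.fst.comp Primrec.fst)))
    · exact Om.pr_isPre.comp ((Primrec.snd.comp (Primrec.snd.comp Primrec.snd)).pair
        (Primrec.fst.comp (Primrec.fst.comp Primrec.fst)))
  · exact (pr_Hs hq hr).comp (Primrec.fst.comp (Primrec.snd.comp Primrec.fst)) Primrec.snd

theorem mem_UE_TE {A Z : ℕ → Bool} {d : ℕ} : Z ∈ UE (TE q1 rho) A d ↔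
    ∃ s, ∃ y ∈ Hs q1 rho d s, y.1 = pre Z y.1.length ∧ y.2.2 = pre A y.2.2.length := by
  unfold UE TE
  simp only [Set.mem_ofPred_eq]
  constructor
  · rintro ⟨a, t, s, y, hy, h1, h2⟩
    refine ⟨s, y, hy, ?_, pre_eq_of_prefix h2⟩
    rw [h1, length_pre]
  · rintro ⟨s, y, hy, h1, h2⟩
    refine ⟨y.2.2.length, y.1.length, s, y, hy, h1, ?_⟩
    rw [← h2]

variable {U : List Bool →. List Bool}
  (hpf : ∀ σ τ : List Bool, (U σ).Dom → (U τ).Dom → σ <+: τ → σ = τ)
  (hq1 : ∀ σ n t, q1 (σ, n) t → List.replicate n false ∈ U σ)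

include hpf hq1 in
theorem sum_test (A : ℕ → Bool) (d s : ℕ) (G : Finset (Str × PR))
    (hG : ∀ x ∈ G, x ∈ Hs q1 rho d s ∧ x.2.2 = pre A x.2.2.length) :
    ∑ x ∈ G, (1 / 2 : ℝ) ^ x.1.length ≤ (1 / 2 : ℝ) ^ d := by
  have I := inv_RR q1 rho d _ (OKl_LL s)
  have hnd : (Hs q1 rho d s).Nodup := by
    unfold List.Nodup
    refine I.i2.imp ?_
    intro a b h hab
    exact h.1 (by rw [hab])
  set P := G.image Prod.snd with hP
  have h1 : ∑ x ∈ G, (1 / 2 : ℝ) ^ x.1.length ≤ ∑ p ∈ P, wR (Hs q1 rho d s) p := by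
    have h2 : ∀ p, wR (Hs q1 rho d s) p =
        ∑ x ∈ (Hs q1 rho d s).toFinset, if x.2 = p then (1 / 2 : ℝ) ^ x.1.length else 0 := by
      intro p
      unfold wR
      rw [List.sum_toFinset _ hnd]
    simp only [h2]
    rw [Finset.sum_comm]
    have h3 : G ⊆ (Hs q1 rho d s).toFinset := by
      intro x hx
      rw [List.mem_toFinset]
      exact (hG x hx).1
    refine le_trans ?_ (Finset.sum_le_sum_of_subset_of_nonneg h3 fun x _ _ =>
      Finset.sum_nonneg fun p _ => by split_ifs <;> positivity)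
    refine Finset.sum_le_sum fun x hx => ?_
    rw [Finset.sum_ite_eq, if_pos (Finset.mem_image_of_mem _ hx)]
  refine h1.trans ?_
  have h2 : ∑ p ∈ P, wR (Hs q1 rho d s) p ≤ ∑ p ∈ P, (1 / 2 : ℝ) ^ (p.1.length + d) :=
    Finset.sum_le_sum fun p _ => I.i4 p
  refine h2.trans ?_
  have hval : ∀ p ∈ P, List.replicate p.2.length false ∈ U p.1 ∧ p.2 = pre A p.2.length := by
    intro p hp
    rw [hP, Finset.mem_image] at hp
    obtain ⟨x, hx, rfl⟩ := hp
    exact ⟨hq1 _ _ _ (I.i3 x (hG x hx).1).1, (hG x hx).2⟩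
  have hinj : Set.InjOn Prod.fst (P : Set PR) := by
    intro p hp p' hp' h
    have h3 := hval p hp
    have h4 := hval p' hp'
    rw [h] at h3
    have h5 := congrArg List.length (Part.mem_unique h3.1 h4.1)
    simp only [List.length_replicate] at h5
    refine Prod.ext h ?_
    rw [h3.2, h4.2, h5]
  have h3 : ∑ p ∈ P, (1 / 2 : ℝ) ^ (p.1.length + d) =
      (∑ σ ∈ P.image Prod.fst, (1 / 2 : ℝ) ^ σ.length) * (1 / 2 : ℝ) ^ d := by
    rw [Finset.sum_image hinj, Finset.sum_mul]
    exact Finset.sum_congr rfl fun p _ => by rw [pow_add]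
  rw [h3]
  have h4 : ∑ σ ∈ P.image Prod.fst, (1 / 2 : ℝ) ^ σ.length ≤ 1 := by
    refine Om.kraft _ ?_
    intro σ hσ τ hτ h
    rw [Finset.mem_image] at hσ hτ
    obtain ⟨p, hp, rfl⟩ := hσ
    obtain ⟨p', hp', rfl⟩ := hτ
    exact hpf _ _ (Part.dom_iff_mem.2 ⟨_, (hval p hp).1⟩)
      (Part.dom_iff_mem.2 ⟨_, (hval p' hp').1⟩) h
  have h5 : (0 : ℝ) < (1 / 2 : ℝ) ^ d := by positivity
  nlinarith

include hpf hq1 in
theorem lam_TE (A : ℕ → Bool) (d : ℕ) : lam (UE (TE q1 rho) A d) ≤ (1 / 2) ^ d := by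
  let G : ℕ → Finset (Str × PR) := fun s =>
    (Hs q1 rho d s).toFinset.filter fun x => x.2.2 = pre A x.2.2.length
  have hmono : Monotone fun s => ⋃ x ∈ G s, cyl x.1 := by
    intro s t hst Z hZ
    simp only [Set.mem_iUnion, exists_prop, G, Finset.mem_filter, List.mem_toFinset] at hZ ⊢
    obtain ⟨x, ⟨h1, h2⟩, h3⟩ := hZ
    exact ⟨x, ⟨(RR_prefix q1 rho d (LL_prefix hst)).subset h1, h2⟩, h3⟩
  have h1 : UE (TE q1 rho) A d = ⋃ s, ⋃ x ∈ G s, cyl x.1 := by
    ext Z
    rw [mem_UE_TE]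
    simp only [Set.mem_iUnion, G, Finset.mem_filter, List.mem_toFinset, mem_cyl_iff, exists_prop]
    constructor
    · rintro ⟨s, y, hy, h1, h2⟩
      exact ⟨s, y, ⟨hy, h2⟩, h1.symm⟩
    · rintro ⟨s, y, ⟨hy, h2⟩, h1⟩
      exact ⟨s, y, hy, h1.symm, h2⟩
  rw [h1, hmono.measure_iUnion]
  refine iSup_le fun s => ?_
  refine (measure_biUnion_finset_le _ _).trans ?_
  have h2 : ∑ x ∈ G s, (1 / 2 : ℝ) ^ x.1.length ≤ (1 / 2 : ℝ) ^ d := by
    refine sum_test (rho := rho) hpf hq1 A d s (G s) ?_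
    intro x hx
    simp only [G, Finset.mem_filter, List.mem_toFinset] at hx
    exact hx
  have h3 : ∀ m : ℕ, (1 / 2 : ℝ≥0∞) ^ m = ENNReal.ofReal ((1 / 2 : ℝ) ^ m) := by
    intro m
    rw [ENNReal.ofReal_pow (by norm_num), ENNReal.ofReal_div_of_pos (by norm_num)]
    simp
  have h4 : ∑ x ∈ G s, lam (cyl x.1) = ENNReal.ofReal (∑ x ∈ G s, (1 / 2 : ℝ) ^ x.1.length) := by
    rw [ENNReal.ofReal_sum_of_nonneg fun x _ => by positivity]
    exact Finset.sum_congr rfl fun x _ => by rw [lam_cyl, h3]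
  rw [h4, h3]
  exact ENNReal.ofReal_le_ofReal h2

end test

/-- Every base for Martin-Löf randomness is K-trivial (Hirschfeldt, Nies, Stephan). -/
theorem base_KTrivial {U : List Bool →. List Bool} (hU : IsUniversal U) {A X : ℕ → Bool}
    (hA : TLe A X) (hX : MLR A X) : KTrivial U A := by
  -- the relation `rho`
  obtain ⟨E, hE, mE, eE⟩ := tLe_iff.1 hA
  obtain ⟨qE, hqE, hqEm, hqEe⟩ := hE
  let rho : Str → Str → Prop := fun z τ => ∀ i < τ.length, ∃ j < z.length + 1,
    qE (z.take j, i, τ.getD i false) z.length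
  have hrho : PrimrecRel rho := by
    refine PP.all_lt (α := Str × Str) (f := fun x => x.2.length)
      (p := fun x i => ∃ j < x.1.length + 1, qE (x.1.take j, i, x.2.getD i false) x.1.length) ?_
      (Primrec.list_length.comp Primrec.snd)
    have e1 : Primrec fun y : ((Str × Str) × ℕ) × ℕ => y.1.1.1 :=
      Primrec.fst.comp (Primrec.fst.comp Primrec.fst)
    refine PP.ex_lt (α := (Str × Str) × ℕ) (f := fun x => x.1.1.length + 1)
      (p := fun x j => qE (x.1.1.take j, x.2, x.1.2.getD x.2 false) x.1.1.length) ?_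
      (Primrec.succ.comp (Primrec.list_length.comp (Primrec.fst.comp Primrec.fst)))
    refine hqE.comp ((Primrec.list_take.comp Primrec.snd e1).pair
      ((Primrec.snd.comp Primrec.fst).pair ?_)) (Primrec.list_length.comp e1)
    exact (Primrec.list_getD false).comp (Primrec.snd.comp (Primrec.fst.comp Primrec.fst))
      (Primrec.snd.comp Primrec.fst)
  have r1 : ∀ m τ, rho (pre X m) τ → τ = pre A τ.length := by
    intro m τ h
    refine List.ext_getElem (by simp) fun i h1 h2 => ?_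
    obtain ⟨j, hj, h3⟩ := h i h1
    rw [length_pre] at hj
    rw [take_pre _ _ _ (by omega)] at h3
    have h4 := (eE i (τ.getD i false)).2 ⟨j, (hqEe _).2 ⟨_, h3⟩⟩
    rw [getElem_pre, h4, List.getD_eq_getElem _ _ h1]
  have r2 : ∀ n, ∃ m0, ∀ m, m0 ≤ m → rho (pre X m) (pre A n) := by
    intro n
    have key : ∀ i, ∃ m0, ∀ m, m0 ≤ m → ∃ j < (pre X m).length + 1,
        qE ((pre X m).take j, i, A i) (pre X m).length := by
      intro i
      obtain ⟨s, hs⟩ := (eE i (A i)).1 rfl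
      obtain ⟨t, ht⟩ := (hqEe _).1 hs
      refine ⟨max s t, fun m hm => ⟨s, ?_, ?_⟩⟩
      · rw [length_pre]; omega
      · rw [length_pre, take_pre _ _ _ (by omega)]
        exact hqEm _ _ _ (by omega) ht
    choose f hf using key
    refine ⟨(Finset.range n).sup f, fun m hm i hi => ?_⟩
    rw [length_pre] at hi
    have h1 : f i ≤ m := le_trans (Finset.le_sup (f := f) (Finset.mem_range.2 hi)) hm
    rw [pre_getD _ _ _ _ hi]
    exact hf i m h1
  -- the relation `q1`
  obtain ⟨q1, hq, hqm, hqe⟩ := s1_output hU.1.1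
  have hq1 : ∀ σ n t, q1 (σ, n) t → List.replicate n false ∈ U σ :=
    fun σ n t h => (hqe (σ, n)).2 ⟨t, h⟩
  -- the test
  have htest : IsMLTest A (UE (TE q1 rho) A) :=
    isMLTest_of_E (s1_TE hq hrho) fun d => lam_TE hU.1.2 hq1 A d
  have hnot := hX _ htest
  rw [Set.mem_iInter] at hnot
  push Not at hnot
  obtain ⟨d, hd⟩ := hnot
  rw [mem_UE_TE] at hd
  have hd' : ∀ s, ∀ y ∈ Hs q1 rho d s, y.1 = pre X y.1.length → y.2.2 ≠ pre A y.2.2.length := by
    intro s y hy h1 h2
    exact hd ⟨s, y, hy, h1, h2⟩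
  -- every pair is full
  have hfull : ∀ n σ, List.replicate n false ∈ U σ → ∃ s, full q1 rho d s (σ, pre A n) := by
    intro n σ hσ
    by_contra hcon
    push Not at hcon
    obtain ⟨t, ht⟩ := (hqe (σ, n)).1 hσ
    obtain ⟨m0, hm0⟩ := r2 n
    set p : PR := (σ, pre A n) with hp
    obtain ⟨m, hm1, hm2, hm3, hm4⟩ : ∃ m, m0 ≤ m ∧ t ≤ m ∧ encode p < m ∧ σ.length + d ≤ m :=
      ⟨m0 + t + (encode p + 1) + (σ.length + d), by omega, by omega, by omega, by omega⟩
    -- processing of `z`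
    set z := pre X m with hz
    have hzlen : z.length = m := by rw [hz, length_pre]
    have hzmem : z ∈ strs m := mem_strs.2 hzlen
    obtain ⟨l1, l2, hl⟩ := List.append_of_mem hzmem
    have hLL : LL (m + 1) = (LL m ++ l1 ++ [z]) ++ l2 := by
      rw [LL_succ, hl]; simp
    have hpre2 : RR q1 rho d (LL m ++ l1 ++ [z]) <+: Hs q1 rho d (m + 1) := by
      unfold Hs
      rw [hLL]
      exact RR_prefix q1 rho d (List.prefix_append _ _)
    have hpre1 : RR q1 rho d (LL m ++ l1) <+: Hs q1 rho d (m + 1) :=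
      (RR_prefix q1 rho d (List.prefix_append _ _)).trans hpre2
    set H := RR q1 rho d (LL m ++ l1) with hH
    have hstep : RR q1 rho d (LL m ++ l1 ++ [z]) = stepH q1 rho d H z := RR_snoc q1 rho d _ _
    have hgood : ∀ y ∈ Hs q1 rho d (m + 1), y.1 = pre X y.1.length → False := by
      intro y hy h1
      have h2 := ((inv_RR q1 rho d _ (OKl_LL (m + 1))).i3 y hy).2
      rw [h1] at h2
      exact hd' _ y hy h1 (r1 _ _ h2)
    have hno : ¬ ∃ x ∈ H, x.1 <+: z := by
      rintro ⟨x, hx, hxz⟩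
      exact hgood x (hpre1.subset hx) (pre_eq_of_prefix hxz)
    have hCC : CC q1 rho d H z p := by
      refine ⟨?_, ?_, ?_, ?_⟩
      · rw [hzlen, hp]
        simp only [length_pre]
        exact hqm _ _ _ hm2 ht
      · exact hm0 m hm1
      · rw [hzlen, hp]; exact hm4
      · rw [hzlen, hp]
        simp only
        by_contra hcon2
        push Not at hcon2
        refine hcon (m + 1) ?_
        rw [full_iff]
        refine ⟨?_, ?_⟩
        · show σ.length + d ≤ m + 1
          omega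
        refine le_trans ?_ (wR_mono p hpre1)
        have hlen : ∀ x ∈ H, x.1.length ≤ m := by
          intro x hx
          have := Hs_len q1 rho (hpre1.subset hx)
          omega
        have h3 := W_eq H p m hlen
        have h4 : (2 : ℝ) ^ (m - (σ.length + d)) ≤ (W H p m : ℝ) := by exact_mod_cast hcon2
        rw [h3, pow_sub₀ _ (by norm_num) hm4] at h4
        have h5 : (0 : ℝ) < 2 ^ m := by positivity
        rw [one_div, inv_pow]
        exact le_of_mul_le_mul_left h4 h5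
    obtain ⟨p', hp'1, hp'2⟩ := stepH_pos q1 rho d H z hno
      ⟨p, Om.mem_cand_of_encode (by rw [hzlen]; exact hm3), hCC⟩
    have hmem : (z, p') ∈ Hs q1 rho d (m + 1) := by
      refine hpre2.subset ?_
      rw [hstep, hp'1]
      simp
    exact hgood _ hmem (by simp [hz])
  -- the machine
  obtain ⟨M, hM1, hM2, hM3⟩ := KC.kraft_chaitin (pr_req hq hrho d) (req_bound q1 rho d)
  obtain ⟨c, hc⟩ := hU.2 M ⟨hM1, hM2⟩
  refine ⟨d + c, fun n => ?_⟩
  obtain ⟨σ, hσ1, hσ2⟩ := hU.exists_min (List.replicate n false)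
  obtain ⟨s, hs⟩ := hfull n σ hσ2
  obtain ⟨t, ht1, ht2⟩ := exists_first q1 rho hs
  obtain ⟨τ, hτ1, hτ2⟩ := hM3 _ _ _ (req_of q1 rho ht1 ht2)
  obtain ⟨τ', hτ'1, hτ'2⟩ := hc τ _ hτ2
  have h1 := KU_le hτ'2
  have h2 : ((List.range n).map A) = pre A n := rfl
  rw [h2]
  have h3 : KU U (pre A n) ≤ τ'.length := h1
  simp only at hτ1
  omega

end Pool.Agent.H561R3.LR
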