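import Mathlib
import Pool.Agent.Helper227.Univ
import Pool.Agent.Helper227.VL
import Pool.Agent.Helper227.RD.SI
import Pool.Agent.Helper227.RD.Dim
import Pool.Agent.H561R3.LR.Base

set_option autoImplicit false

namespace Pool.Agent.H561R3.LR

open Encodable Pool.Agent.Helper227 Pool.Agent.H561R3 MeasureTheory
open scoped ENNReal

open Classical

section

variable (qE : Str × ℕ × Str → ℕ → Prop)

/-- the finite form of the universal test -/
def DB (b y : Str) : Prop := ∃ i < b.length + 1, ∃ j < y.length + 1,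
  qE (b.take i, 1, y.take j) b.length

variable {qE}

theorem pr_DB (hq : PrimrecRel qE) : PrimrecRel (DB qE) := by
  unfold DB
  refine PP.ex_lt (α := Str × Str) (f := fun x => x.1.length + 1) (p := fun x i =>
    ∃ j < x.2.length + 1, qE (x.1.take i, 1, x.2.take j) x.1.length) ?_
    (Primrec.succ.comp (Primrec.list_length.comp Primrec.fst))
  refine PP.ex_lt (α := (Str × Str) × ℕ) (f := fun x => x.1.2.length + 1) (p := fun x j =>
    qE (x.1.1.take x.2, 1, x.1.2.take j) x.1.1.length) ?_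
    (Primrec.succ.comp (Primrec.list_length.comp (Primrec.snd.comp Primrec.fst)))
  have e1 : Primrec fun y : ((Str × Str) × ℕ) × ℕ => y.1.1.1 :=
    Primrec.fst.comp (Primrec.fst.comp Primrec.fst)
  have e2 : Primrec fun y : ((Str × Str) × ℕ) × ℕ => y.1.1.2 :=
    Primrec.snd.comp (Primrec.fst.comp Primrec.fst)
  exact hq.comp ((Primrec.list_take.comp (Primrec.snd.comp Primrec.fst) e1).pair
    ((Primrec.const 1).pair (Primrec.list_take.comp Primrec.snd e2)))
    (Primrec.list_length.comp e1)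

variable (qE)

/-- number of surviving extensions of `σ` at stage `|b|` -/
noncomputable def cntB (b σ : Str) : ℕ :=
  ((strs b.length).map (fun z => if σ <+: z ∧ ¬ DB qE b z then 1 else 0)).sum

/-- enumeration of the auxiliary test -/
def FB (x : Str × ℕ × Str) : Prop := x.1.length = x.2.2.length ∧ ¬ DB qE x.1 x.2.2 ∧
  ∃ i < x.2.2.length + 1, cntB qE x.1 (x.2.2.take i) * 2 ^ (2 * i + 1 + x.2.1) ≤
    2 ^ x.2.2.length

variable {qE}

theorem pr_cntB (hq : PrimrecRel qE) : Primrec₂ (cntB qE) := by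
  unfold cntB
  refine pr_sum (f := fun x : Str × Str => strs x.1.length)
    (g := fun x z => if x.2 <+: z ∧ ¬ DB qE x.1 z then 1 else 0)
    (pr_strs.comp (Primrec.list_length.comp Primrec.fst)) ?_
  refine Primrec.ite (PrimrecPred.and ?_ (PrimrecPred.not ?_)) (Primrec.const 1) (Primrec.const 0)
  · exact Om.pr_isPre.comp ((Primrec.snd.comp Primrec.fst).pair Primrec.snd)
  · exact (pr_DB hq).comp (Primrec.fst.comp Primrec.fst) Primrec.snd

theorem pr_FB (hq : PrimrecRel qE) : PrimrecPred (FB qE) := by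
  unfold FB
  have e3 : Primrec fun x : Str × ℕ × Str => x.2.2 := Primrec.snd.comp Primrec.snd
  refine PrimrecPred.and ?_ (PrimrecPred.and (PrimrecPred.not ?_) ?_)
  · exact Primrec.eq.comp (Primrec.list_length.comp Primrec.fst) (Primrec.list_length.comp e3)
  · exact (pr_DB hq).comp Primrec.fst e3
  · refine PP.ex_lt (α := Str × ℕ × Str) (f := fun x => x.2.2.length + 1) (p := fun x i =>
      cntB qE x.1 (x.2.2.take i) * 2 ^ (2 * i + 1 + x.2.1) ≤ 2 ^ x.2.2.length) ?_
      (Primrec.succ.comp (Primrec.list_length.comp e3))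
    have e4 : Primrec fun y : (Str × ℕ × Str) × ℕ => y.1.2.2 := e3.comp Primrec.fst
    refine Primrec.nat_le.comp (Primrec.nat_mul.comp ((pr_cntB hq).comp
      (Primrec.fst.comp Primrec.fst) (Primrec.list_take.comp Primrec.snd e4))
      (pr_pow.comp (Primrec.const 2) (Primrec.nat_add.comp (Primrec.succ.comp
        (Primrec.nat_mul.comp (Primrec.const 2) Primrec.snd))
        (Primrec.fst.comp (Primrec.snd.comp Primrec.fst)))))
      (pr_pow.comp (Primrec.const 2) (Primrec.list_length.comp e4))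

variable (qE) (B : ℕ → Bool)

/-- strings whose cylinder is covered by stage `|y|` -/
def Bad (y : Str) : Prop := DB qE (pre B y.length) y

/-- extendible in the class -/
def Ext (σ : Str) : Prop := ∃ Z ∈ cyl σ, ∀ n, ¬ Bad qE B (pre Z n)

variable {qE} {B}

theorem Bad_mono (hm : ∀ a m n, m ≤ n → qE a m → qE a n) {y y' : Str} (h : y <+: y')
    (hb : Bad qE B y) : Bad qE B y' := by
  obtain ⟨i, hi, j, hj, h1⟩ := hb
  have hl := h.length_le
  rw [length_pre] at hi h1
  refine ⟨i, by rw [length_pre]; omega, j, by omega, ?_⟩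
  rw [length_pre]
  rw [take_pre _ _ _ (by omega)] at h1 ⊢
  have h5 : y.take j = y'.take j := by
    obtain ⟨t, rfl⟩ := h
    rw [List.take_append_of_le_length (by omega)]
  rw [h5] at h1
  exact hm _ _ _ hl h1

theorem nonExt (hm : ∀ a m n, m ≤ n → qE a m → qE a n) {σ : Str} (h : ¬ Ext qE B σ) :
    ∃ s, σ.length ≤ s ∧ ∀ y : Str, y.length = s → σ <+: y → Bad qE B y := by
  by_contra hcon
  push Not at hcon
  apply h
  refine exists_path (fun a b hab hb => Bad_mono hm hab hb) ?_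
  intro m
  obtain ⟨y, h1, h2, h3⟩ := hcon (max m σ.length) (le_max_right _ _)
  refine ⟨y.take m, by rw [List.length_take, h1]; omega, ?_, fun hb => h3
    (Bad_mono hm (List.take_prefix _ _) hb)⟩
  obtain ⟨t, rfl⟩ := h2
  by_cases hml : m ≤ σ.length
  · refine ⟨σ.drop m, Or.inl ?_⟩
    rw [List.take_append_of_le_length hml, List.take_append_drop]
  · push Not at hml
    refine ⟨t.take (m - σ.length), Or.inr ?_⟩
    rw [List.take_append, List.take_of_length_le hml.le]

theorem nonExt_iff (hm : ∀ a m n, m ≤ n → qE a m → qE a n) {σ : Str} : ¬ Ext qE B σ ↔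
    ∃ s, σ.length ≤ s ∧ ∀ y ∈ strs s, ¬ σ <+: y ∨ Bad qE B y := by
  constructor
  · intro h
    obtain ⟨s, h1, h2⟩ := nonExt hm h
    refine ⟨s, h1, fun y hy => ?_⟩
    by_cases h3 : σ <+: y
    · right; exact h2 y (mem_strs.1 hy) h3
    · left; exact h3
  · rintro ⟨s, h1, h2⟩ ⟨Z, hZ, h3⟩
    rw [mem_cyl_iff] at hZ
    rcases h2 (pre Z s) (mem_strs.2 (by simp)) with h4 | h4
    · apply h4
      rw [← hZ]
      exact pre_prefix Z h1
    · exact h3 s h4

theorem mem_UE_FB {m : ℕ} {Z : ℕ → Bool} : Z ∈ UE (FB qE) B m ↔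
    ∃ s, ¬ Bad qE B (pre Z s) ∧ ∃ i ≤ s, cntB qE (pre B s) (pre Z i) * 2 ^ (2 * i + 1 + m) ≤ 2 ^ s := by
  unfold UE FB Bad
  simp only [Set.mem_ofPred_eq, length_pre]
  constructor
  · rintro ⟨s, t, rfl, h1, i, hi, h2⟩
    rw [take_pre _ _ _ (by omega)] at h2
    exact ⟨s, h1, i, by omega, h2⟩
  · rintro ⟨s, h1, i, hi, h2⟩
    refine ⟨s, s, rfl, h1, i, by omega, ?_⟩
    rw [take_pre _ _ _ hi]
    exact h2

theorem cntB_eq (s : ℕ) (σ : Str) : cntB qE (pre B s) σ =
    ((FS s).filter fun z => σ <+: z ∧ ¬ Bad qE B z).card := by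
  unfold cntB
  rw [length_pre, ← sum_FS (fun z => if σ <+: z ∧ ¬ DB qE (pre B s) z then 1 else 0),
    Finset.card_filter]
  refine Finset.sum_congr rfl fun z hz => ?_
  rw [mem_FS] at hz
  unfold Bad
  rw [hz]

theorem lam_FB (hm : ∀ a m n, m ≤ n → qE a m → qE a n) (m : ℕ) :
    lam (UE (FB qE) B m) ≤ (1 / 2) ^ m := by
  -- the level of `σ`
  let c : Str → ℕ → Prop := fun σ s => σ.length ≤ s ∧
    cntB qE (pre B s) σ * 2 ^ (2 * σ.length + 1 + m) ≤ 2 ^ s
  let s0 : Str → ℕ := fun σ => if h : ∃ s, c σ s then Nat.find h else 0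
  let N : Str → Finset Str := fun σ => if ∃ s, c σ s then
    (FS (s0 σ)).filter fun z => σ <+: z ∧ ¬ Bad qE B z else ∅
  have hN : ∀ σ, lam (⋃ z ∈ N σ, cyl z) ≤ (1 / 2) ^ (2 * σ.length + 1 + m) := by
    intro σ
    by_cases h : ∃ s, c σ s
    · have hs : c σ (s0 σ) := by
        simp only [s0]
        rw [dif_pos h]
        exact Nat.find_spec h
      have hNσ : N σ = (FS (s0 σ)).filter fun z => σ <+: z ∧ ¬ Bad qE B z := by
        simp only [N]; rw [if_pos h]
      have h1 : (⋃ z ∈ N σ, cyl z) = {X | pre X (s0 σ) ∈ N σ} := by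
        ext X
        simp only [Set.mem_iUnion, exists_prop, Set.mem_ofPred_eq]
        constructor
        · rintro ⟨z, hz, hX⟩
          rw [mem_cyl_iff] at hX
          have hz' := hz
          rw [hNσ, Finset.mem_filter, mem_FS] at hz'
          rw [hz'.1] at hX
          rw [hX]; exact hz
        · intro hX
          exact ⟨_, hX, mem_cyl_pre _ _⟩
      rw [h1, lam_finset (N σ) (s0 σ) (fun z hz => by
        rw [hNσ, Finset.mem_filter, mem_FS] at hz
        exact hz.1), ennreal_aux]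
      have h2 := hs.2
      rw [cntB_eq] at h2
      rw [hNσ]
      exact h2
    · have : N σ = ∅ := by simp only [N]; rw [if_neg h]
      rw [this]
      simp
  have hsub : UE (FB qE) B m ⊆ ⋃ i : ℕ, ⋃ σ ∈ FS i, ⋃ z ∈ N σ, cyl z := by
    intro Z hZ
    rw [mem_UE_FB] at hZ
    obtain ⟨s, h1, i, hi, h2⟩ := hZ
    have hc : c (pre Z i) s := ⟨by rw [length_pre]; exact hi, by rw [length_pre]; exact h2⟩
    have hex : ∃ s, c (pre Z i) s := ⟨s, hc⟩
    have hs0 : s0 (pre Z i) = Nat.find hex := by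
      simp only [s0]; rw [dif_pos hex]
    have hs1 : c (pre Z i) (s0 (pre Z i)) := by rw [hs0]; exact Nat.find_spec hex
    have hs2 : s0 (pre Z i) ≤ s := by rw [hs0]; exact Nat.find_min' hex hc
    have hi0 : i ≤ s0 (pre Z i) := by have := hs1.1; rwa [length_pre] at this
    simp only [Set.mem_iUnion, exists_prop]
    refine ⟨i, pre Z i, mem_FS.2 (by simp), pre Z (s0 (pre Z i)), ?_, mem_cyl_pre _ _⟩
    simp only [N]
    rw [if_pos hex, Finset.mem_filter, mem_FS]
    exact ⟨by simp, pre_prefix Z hi0, fun hb => h1 (Bad_mono hm (pre_prefix Z hs2) hb)⟩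
  refine (measure_mono hsub).trans ((measure_iUnion_le _).trans ?_)
  rw [← tsum_half_pow m]
  refine ENNReal.tsum_le_tsum fun i => ?_
  refine (measure_biUnion_finset_le _ _).trans ?_
  have h1 : ∑ σ ∈ FS i, lam (⋃ z ∈ N σ, cyl z) ≤ ∑ _σ ∈ FS i, (1 / 2 : ℝ≥0∞) ^ (2 * i + 1 + m) := by
    refine Finset.sum_le_sum fun σ hσ => ?_
    have := hN σ
    rw [mem_FS.1 hσ] at this
    exact this
  refine h1.trans ?_
  rw [Finset.sum_const, card_FS, nsmul_eq_mul, Nat.cast_pow, Nat.cast_ofNat]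
  exact ennreal_pow_aux
where
  ennreal_pow_aux : ∀ {i m : ℕ}, (2 : ℝ≥0∞) ^ i * (1 / 2) ^ (2 * i + 1 + m) ≤ (1 / 2) ^ (m + i + 1) := by
    intro i m
    have h1 : (2 : ℝ≥0∞) * (1 / 2) = 1 := by
      rw [one_div]; exact ENNReal.mul_inv_cancel (by norm_num) (by norm_num)
    have h2 : (2 : ℝ≥0∞) ^ i * (1 / 2) ^ i = 1 := by rw [← mul_pow, h1, one_pow]
    have h3 : (1 / 2 : ℝ≥0∞) ^ (2 * i + 1 + m) = (1 / 2) ^ i * (1 / 2) ^ (m + i + 1) := by
      rw [← pow_add]; congr 1; ring
    rw [h3, ← mul_assoc, h2, one_mul]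

end

end Pool.Agent.H561R3.LR
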