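import Mathlib
import Pool.Agent.H561R3.LR.KG

set_option autoImplicit false

namespace Pool.Agent.H561R3.LR

open Encodable Pool.Agent.Helper227 Pool.Agent.H561R3 MeasureTheory
open scoped ENNReal

open Classical

theorem absorb {B : ℕ → Bool} {F : Str × ℕ × Str → Prop} (hF : S1 F)
    (hm : ∀ m, lam (UE F B m) ≤ (1 / 2) ^ m) : ∃ m0, UE F B m0 ⊆ UE EU0 B 1 := by
  obtain ⟨c, hc⟩ := exists_DtSet hF
  refine ⟨1 + encode c + 1, ?_⟩
  rw [hc B _ (hm _), UE_EU0]
  exact Set.subset_iUnion (fun c : Nat.Partrec.Code => DtSet c B (1 + encode c + 1)) c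

theorem mlr_of_not_mem {B Z : ℕ → Bool} (hZ : Z ∉ UE EU0 B 1) : MLR B Z := by
  intro V hV hmem
  obtain ⟨F, hF, _, hVF⟩ := hV.exists_E
  obtain ⟨m0, h1⟩ := absorb (B := B) hF (fun m => by rw [← hVF]; exact hV.2 m)
  rw [Set.mem_iInter] at hmem
  have h2 := hmem m0
  rw [hVF] at h2
  exact hZ (h1 h2)

section

variable {qE : Str × ℕ × Str → ℕ → Prop} {B : ℕ → Bool}

/-- the lengths -/
def Ln (m0 : ℕ) : ℕ → ℕ
  | 0 => 0
  | k + 1 => 2 * Ln m0 k + 1 + m0

theorem le_Ln (m0 k : ℕ) : k ≤ Ln m0 k := by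
  induction k with
  | zero => exact Nat.zero_le _
  | succ k ih => rw [Ln]; omega

theorem pr_Ln (m0 : ℕ) : Primrec (Ln m0) := by
  have h : Primrec₂ fun (_ : ℕ) (L : ℕ) => 2 * L + 1 + m0 :=
    Primrec.nat_add.comp (Primrec.succ.comp (Primrec.nat_mul.comp (Primrec.const 2) Primrec.snd))
      (Primrec.const m0)
  refine (Primrec.nat_rec₁ 0 h).of_eq fun n => ?_
  induction n with
  | zero => rfl
  | succ n ih => simp only [Ln, ← ih]

theorem key (hq : PrimrecRel qE) (hm : ∀ a m n, m ≤ n → qE a m → qE a n)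
    (hUE : ∀ Z, Z ∈ UE EU0 B 1 ↔ ∃ s, Bad qE B (pre Z s)) :
    ∃ m0, ∀ σ, Ext qE B σ → ∀ s, σ.length ≤ s →
      2 ^ s < cntB qE (pre B s) σ * 2 ^ (2 * σ.length + 1 + m0) := by
  obtain ⟨m0, h1⟩ := absorb (B := B) (S1.of_prim (pr_FB hq)) (fun m => lam_FB hm m)
  refine ⟨m0, fun σ hσ s hs => ?_⟩
  by_contra hcon
  push Not at hcon
  obtain ⟨Z, hZ, h2⟩ := hσ
  rw [mem_cyl_iff] at hZ
  have h3 : Z ∈ UE (FB qE) B m0 := by
    rw [mem_UE_FB]
    exact ⟨s, h2 s, σ.length, hs, by rw [hZ]; exact hcon⟩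
  obtain ⟨t, ht⟩ := (hUE Z).1 (h1 h3)
  exact h2 t ht

theorem two_ext (hm : ∀ a m n, m ≤ n → qE a m → qE a n) {m0 : ℕ}
    (hk : ∀ σ, Ext qE B σ → ∀ s, σ.length ≤ s →
      2 ^ s < cntB qE (pre B s) σ * 2 ^ (2 * σ.length + 1 + m0))
    {σ : Str} (hσ : Ext qE B σ) (τ : Str) : ∃ τ', τ' ≠ τ ∧ τ'.length = 2 * σ.length + 1 + m0 ∧
      σ <+: τ' ∧ Ext qE B τ' := by
  by_contra hcon
  push Not at hcon
  set L := 2 * σ.length + 1 + m0 with hL
  have h1 : ∀ z : Str, ∃ s, z ≠ τ → z.length = L → σ <+: z →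
      (z.length ≤ s ∧ ∀ y : Str, y.length = s → z <+: y → Bad qE B y) := by
    intro z
    by_cases h : z ≠ τ ∧ z.length = L ∧ σ <+: z
    · obtain ⟨s, hs⟩ := nonExt hm (hcon z h.1 h.2.1 h.2.2)
      exact ⟨s, fun _ _ _ => hs⟩
    · exact ⟨0, fun h1 h2 h3 => absurd ⟨h1, h2, h3⟩ h⟩
  choose f hf using h1
  set s := max L ((FS L).sup f) with hs
  have hLs : L ≤ s := le_max_left _ _
  have hkey := hk σ hσ s (by omega)
  rw [cntB_eq, ← hL] at hkey
  have hsub : (FS s).filter (fun z => σ <+: z ∧ ¬ Bad qE B z) ⊆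
      (FS s).filter (fun z => z.take L = τ) := by
    intro y hy
    rw [Finset.mem_filter, mem_FS] at hy ⊢
    refine ⟨hy.1, ?_⟩
    by_contra hne
    have hyL : (y.take L).length = L := by rw [List.length_take, hy.1]; omega
    have hσy : σ <+: y.take L := by
      refine List.prefix_of_prefix_length_le hy.2.1 (List.take_prefix _ _) ?_
      rw [hyL]; omega
    obtain ⟨h2, h3⟩ := hf (y.take L) hne hyL hσy
    have hfs : f (y.take L) ≤ s :=
      le_trans (Finset.le_sup (f := f) (mem_FS.2 hyL)) (le_max_right _ _)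
    rw [hyL] at h2
    have h4 := h3 (y.take (f (y.take L))) (by rw [List.length_take, hy.1]; omega) (by
      refine List.prefix_of_prefix_length_le (List.take_prefix _ _) (List.take_prefix _ _) ?_
      rw [hyL, List.length_take, hy.1]; omega)
    exact hy.2.2 (Bad_mono hm (List.take_prefix _ _) h4)
  have hcard := Finset.card_le_card hsub
  have h5 : ((FS s).filter (fun z => z.take L = τ)).card ≤ 2 ^ (s - L) := by
    rw [Finset.card_filter, sum_take hLs (fun z => if z = τ then 1 else 0)]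
    have : ∑ x ∈ FS L, (if x = τ then 1 else 0) ≤ 1 := by
      rw [Finset.sum_ite_eq']
      split_ifs <;> omega
    calc 2 ^ (s - L) * ∑ x ∈ FS L, (if x = τ then 1 else 0) ≤ 2 ^ (s - L) * 1 :=
          Nat.mul_le_mul_left _ this
      _ = 2 ^ (s - L) := mul_one _
  have h6 : ((FS s).filter (fun z => σ <+: z ∧ ¬ Bad qE B z)).card * 2 ^ L ≤ 2 ^ s := by
    calc _ ≤ 2 ^ (s - L) * 2 ^ L := Nat.mul_le_mul_right _ (hcard.trans h5)
      _ = 2 ^ s := by rw [← pow_add]; congr 1; omega
  omega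

theorem exists_next {m0 : ℕ} {σ : Str} (hσ : Ext qE B σ) (b : Bool) :
    ∃ τ : Str, Ext qE B τ ∧ τ.length = 2 * σ.length + 1 + m0 ∧ σ <+: τ ∧
      ∀ τ' : Str, τ'.length = 2 * σ.length + 1 + m0 → σ <+: τ' → Ext qE B τ' →
        (b = false → encode τ ≤ encode τ') ∧ (b = true → encode τ' ≤ encode τ) := by
  set L := 2 * σ.length + 1 + m0 with hL
  set S := (FS L).filter fun z => σ <+: z ∧ Ext qE B z with hS
  have hmem : ∀ z, z ∈ S ↔ z.length = L ∧ σ <+: z ∧ Ext qE B z := by
    intro z; rw [hS, Finset.mem_filter, mem_FS]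
  have hne : S.Nonempty := by
    obtain ⟨Z, hZ, h1⟩ := hσ
    refine ⟨pre Z L, (hmem _).2 ⟨by simp, ?_, Z, mem_cyl_pre _ _, h1⟩⟩
    rw [mem_cyl_iff] at hZ
    rw [← hZ]
    exact pre_prefix Z (by omega)
  cases b with
  | false =>
    obtain ⟨τ, h1, h2⟩ := Finset.exists_min_image S encode hne
    obtain ⟨h3, h4, h5⟩ := (hmem τ).1 h1
    exact ⟨τ, h5, h3, h4, fun τ' h6 h7 h8 => ⟨fun _ => h2 τ' ((hmem τ').2 ⟨h6, h7, h8⟩),
      fun h => absurd h (by simp)⟩⟩
  | true =>
    obtain ⟨τ, h1, h2⟩ := Finset.exists_max_image S encode hne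
    obtain ⟨h3, h4, h5⟩ := (hmem τ).1 h1
    exact ⟨τ, h5, h3, h4, fun τ' h6 h7 h8 => ⟨fun h => absurd h (by simp),
      fun _ => h2 τ' ((hmem τ').2 ⟨h6, h7, h8⟩)⟩⟩

theorem si_Bad (hq : PrimrecRel qE) : SI B fun y : Str => Bad qE B y := by
  have h : SI B fun y : Str => ∃ b : Str, (b.length = y.length ∧ DB qE b y) ∧
      ∀ i < b.length, B i = b.getD i false := by
    refine SI.ex (p := fun (y b : Str) => (b.length = y.length ∧ DB qE b y) ∧
      ∀ i < b.length, B i = b.getD i false) (SI.and (SI.of_prim ?_) ?_)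
    · refine PrimrecPred.and ?_ ?_
      · exact Primrec.eq.comp (Primrec.list_length.comp Primrec.snd)
          (Primrec.list_length.comp Primrec.fst)
      · exact (pr_DB hq).comp Primrec.snd Primrec.fst
    · refine SI.all_lt (α := Str × Str) (p := fun x i => B i = x.2.getD i false)
        (f := fun x => x.2.length) ?_ (Primrec.list_length.comp Primrec.snd)
      exact SI.query.comp (Primrec.snd.pair ((Primrec.list_getD false).comp
        (Primrec.snd.comp Primrec.fst) Primrec.snd))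
  refine h.of_eq fun y => ?_
  unfold Bad
  constructor
  · rintro ⟨b, ⟨h1, h2⟩, h3⟩
    have : b = pre B y.length := by
      refine List.ext_getElem (by simp [h1]) fun i hi hi' => ?_
      rw [getElem_pre, h3 i hi, List.getD_eq_getElem _ _ hi]
    rw [← this]; exact h2
  · intro h1
    refine ⟨pre B y.length, ⟨by simp, h1⟩, fun i hi => ?_⟩
    rw [length_pre] at hi
    rw [pre_getD _ _ _ _ hi]

theorem si_nonExt (hq : PrimrecRel qE) (hm : ∀ a m n, m ≤ n → qE a m → qE a n) :
    SI B fun σ : Str => ¬ Ext qE B σ := by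
  have h : SI B fun σ : Str => ∃ s : ℕ, σ.length ≤ s ∧ ∀ y ∈ strs s, ¬ σ <+: y ∨ Bad qE B y := by
    refine SI.ex (p := fun (σ : Str) (s : ℕ) => σ.length ≤ s ∧ ∀ y ∈ strs s,
      ¬ σ <+: y ∨ Bad qE B y) (SI.and (SI.of_prim ?_) ?_)
    · exact Primrec.nat_le.comp (Primrec.list_length.comp Primrec.fst) Primrec.snd
    · refine SI.all_mem (α := Str × ℕ) (f := fun x => strs x.2)
        (p := fun x y => ¬ x.1 <+: y ∨ Bad qE B y) (SI.or (SI.of_prim (PrimrecPred.not ?_)) ?_)
        (pr_strs.comp Primrec.snd)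
      · exact Om.pr_isPre.comp ((Primrec.fst.comp Primrec.fst).pair Primrec.snd)
      · exact (si_Bad hq).comp Primrec.snd
  exact h.of_eq fun σ => (nonExt_iff hm).symm

end

/-- the order used for the coding -/
def ltb (b : Bool) (z u : Str) : Prop := (b = false ∧ encode z < encode u) ∨
  (b = true ∧ encode u < encode z)

theorem pr_ltb : PrimrecPred fun x : Bool × Str × Str => ltb x.1 x.2.1 x.2.2 := by
  unfold ltb
  have e1 : Primrec fun x : Bool × Str × Str => encode x.2.1 :=
    Primrec.encode.comp (Primrec.fst.comp Primrec.snd)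
  have e2 : Primrec fun x : Bool × Str × Str => encode x.2.2 :=
    Primrec.encode.comp (Primrec.snd.comp Primrec.snd)
  refine PrimrecPred.or (PrimrecPred.and ?_ ?_) (PrimrecPred.and ?_ ?_)
  · exact Primrec.eq.comp Primrec.fst (Primrec.const false)
  · exact Primrec.nat_lt.comp e1 e2
  · exact Primrec.eq.comp Primrec.fst (Primrec.const true)
  · exact Primrec.nat_lt.comp e2 e1

/-- Kučera-Gács theorem relative to `B`. -/
theorem kucera_gacs (A B : ℕ → Bool) : ∃ Z : ℕ → Bool, MLR B Z ∧ TLe A (join B Z) := by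
  obtain ⟨E0, hE0, _, eE0⟩ := exists_mono3 s1_EU0
  obtain ⟨qE, hq, hm, he⟩ := hE0
  have hUE : ∀ Z, Z ∈ UE EU0 B 1 ↔ ∃ s, Bad qE B (pre Z s) := by
    intro Z
    rw [← eE0]
    constructor
    · rintro ⟨s, t, h⟩
      obtain ⟨n, hn⟩ := (he _).1 h
      refine ⟨max (max s t) n, s, ?_, t, ?_, ?_⟩
      · rw [length_pre, length_pre]; omega
      · rw [length_pre]; omega
      · rw [length_pre, length_pre, take_pre _ _ _ (by omega), take_pre _ _ _ (by omega)]
        exact hm _ _ _ (le_max_right _ _) hn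
    · rintro ⟨s, i, hi, j, hj, h⟩
      rw [length_pre, length_pre] at hi
      rw [length_pre] at hj
      rw [length_pre, length_pre, take_pre _ _ _ (by omega), take_pre _ _ _ (by omega)] at h
      exact ⟨i, j, (he _).2 ⟨_, h⟩⟩
  obtain ⟨m0, hk⟩ := key hq hm hUE
  -- the class is nonempty
  have hroot : Ext qE B [] := by
    by_contra h
    have h1 : UE EU0 B 1 = Set.univ := by
      ext Z
      simp only [Set.mem_univ, iff_true]
      by_contra hZ
      rw [hUE] at hZ
      push Not at hZ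
      exact h ⟨Z, by rw [mem_cyl_iff]; rfl, hZ⟩
    have h2 := lam_UE_EU0_le B 1
    rw [h1] at h2
    have h3 : lam Set.univ = 1 := by
      have : lam (cyl []) = 1 := by rw [lam_cyl]; simp
      rw [← this]
      congr 1
      ext Z
      simp only [Set.mem_univ, true_iff]
      rw [mem_cyl_iff]; rfl
    rw [h3, pow_one] at h2
    exact absurd h2 (by
      rw [not_le, one_div]
      exact ENNReal.inv_lt_one.2 (by norm_num))
  -- the coding sequence
  have hnext : ∀ (b : Bool) (σ : {σ : Str // Ext qE B σ}), ∃ τ : {σ : Str // Ext qE B σ},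
      τ.1.length = 2 * σ.1.length + 1 + m0 ∧ σ.1 <+: τ.1 ∧
      ∀ τ' : Str, τ'.length = 2 * σ.1.length + 1 + m0 → σ.1 <+: τ' → Ext qE B τ' →
        (b = false → encode τ.1 ≤ encode τ') ∧ (b = true → encode τ' ≤ encode τ.1) := by
    intro b σ
    obtain ⟨τ, h1, h2, h3, h4⟩ := exists_next (m0 := m0) σ.2 b
    exact ⟨⟨τ, h1⟩, h2, h3, h4⟩
  choose nx hnx1 hnx2 hnx3 using hnext
  obtain ⟨S, hS0, hSs⟩ : ∃ S : ℕ → {σ : Str // Ext qE B σ}, S 0 = ⟨[], hroot⟩ ∧
      ∀ k, S (k + 1) = nx (A k) (S k) :=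
    ⟨fun n => Nat.rec ⟨[], hroot⟩ (fun k σ => nx (A k) σ) n, rfl, fun _ => rfl⟩
  have hSl : ∀ k, (S k).1.length = Ln m0 k := by
    intro k
    induction k with
    | zero => rw [hS0]; rfl
    | succ k ih => rw [hSs, hnx1, ih]; rfl
  have hSp : ∀ k, (S k).1 <+: (S (k + 1)).1 := fun k => by rw [hSs]; exact hnx2 _ _
  have hSm : ∀ j k, j ≤ k → (S j).1 <+: (S k).1 := by
    intro j k h
    induction k, h using Nat.le_induction with
    | base => exact List.prefix_refl _
    | succ k _ ih => exact ih.trans (hSp k)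
  let Z : ℕ → Bool := fun n => (S (n + 1)).1.getD n false
  have hZ : ∀ k, pre Z (S k).1.length = (S k).1 := by
    intro k
    refine List.ext_getElem (by simp) fun i h1 h2 => ?_
    rw [getElem_pre]
    have h3 : i < (S (i + 1)).1.length := by
      rw [hSl]; exact lt_of_lt_of_le (Nat.lt_succ_self i) (le_Ln m0 (i + 1))
    have h4 : Z i = (S (i + 1)).1[i] := by
      simp only [Z]; rw [List.getD_eq_getElem _ _ h3]
    rw [h4]
    rcases Nat.le_total (i + 1) k with h | h
    · obtain ⟨t, ht⟩ := hSm _ _ h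
      simp only [← ht]
      rw [List.getElem_append_left h3]
    · obtain ⟨t, ht⟩ := hSm _ _ h
      simp only [← ht]
      rw [List.getElem_append_left h2]
  have hZL : ∀ k, pre Z (Ln m0 k) = (S k).1 := fun k => by rw [← hSl]; exact hZ k
  refine ⟨Z, mlr_of_not_mem ?_, ?_⟩
  · rw [hUE]
    rintro ⟨n, hn⟩
    obtain ⟨Z', h1, h2⟩ := (S n).2
    rw [mem_cyl_iff] at h1
    have h3 : n ≤ (S n).1.length := by rw [hSl]; exact le_Ln m0 n
    have h4 : pre Z' n = pre Z n := by
      rw [← take_pre Z' (S n).1.length n h3, ← take_pre Z (S n).1.length n h3, h1, hZ]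
    rw [← h4] at hn
    exact h2 n hn
  · -- decoding
    rw [tLe_iff_SI]
    have hq1 : SI (join B Z) fun x : Str => ∀ i < x.length, Z i = x.getD i false := by
      refine SI.trans ?_ (tLe_join_right B Z)
      refine SI.all_lt (α := Str) (p := fun x i => Z i = x.getD i false)
        (f := fun x => x.length) ?_ Primrec.list_length
      exact SI.query.comp (Primrec.snd.pair ((Primrec.list_getD false).comp
        Primrec.fst Primrec.snd))
    have hq2 : SI (join B Z) fun σ : Str => ¬ Ext qE B σ :=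
      SI.trans (si_nonExt hq hm) (tLe_join_left B Z)
    have h : SI (join B Z) fun x : ℕ × Bool => ∃ u : Str, (u.length = Ln m0 (x.1 + 1) ∧
        ∀ i < u.length, Z i = u.getD i false) ∧ ∀ z ∈ strs (Ln m0 (x.1 + 1)),
          ¬ (u.take (Ln m0 x.1) <+: z ∧ ltb x.2 z u) ∨ ¬ Ext qE B z := by
      have l1 : Primrec fun x : (ℕ × Bool) × Str => Ln m0 (x.1.1 + 1) :=
        (pr_Ln m0).comp (Primrec.succ.comp (Primrec.fst.comp Primrec.fst))
      refine SI.ex (α := ℕ × Bool) (β := Str) (p := fun x u => (u.length = Ln m0 (x.1 + 1) ∧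
        ∀ i < u.length, Z i = u.getD i false) ∧ ∀ z ∈ strs (Ln m0 (x.1 + 1)),
          ¬ (u.take (Ln m0 x.1) <+: z ∧ ltb x.2 z u) ∨ ¬ Ext qE B z)
        (SI.and (SI.and (SI.of_prim ?_) (hq1.comp Primrec.snd)) ?_)
      · exact Primrec.eq.comp (Primrec.list_length.comp Primrec.snd) l1
      · refine SI.all_mem (α := (ℕ × Bool) × Str) (f := fun x => strs (Ln m0 (x.1.1 + 1)))
          (p := fun x z => ¬ (x.2.take (Ln m0 x.1.1) <+: z ∧ ltb x.1.2 z x.2) ∨ ¬ Ext qE B z)
          (SI.or (SI.of_prim (PrimrecPred.not (PrimrecPred.and ?_ ?_)))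
            (hq2.comp Primrec.snd)) (pr_strs.comp l1)
        · exact Om.pr_isPre.comp ((Primrec.list_take.comp ((pr_Ln m0).comp
            (Primrec.fst.comp (Primrec.fst.comp Primrec.fst)))
            (Primrec.snd.comp Primrec.fst)).pair Primrec.snd)
        · exact pr_ltb.comp ((Primrec.snd.comp (Primrec.fst.comp Primrec.fst)).pair
            (Primrec.snd.pair (Primrec.snd.comp Primrec.fst)))
    refine h.of_eq ?_
    rintro ⟨k, b⟩
    simp only
    constructor
    · rintro ⟨u, ⟨h1, h2⟩, h3⟩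
      have hu : u = (S (k + 1)).1 := by
        rw [← hZL]
        refine List.ext_getElem (by simp [h1]) fun i hi hi' => ?_
        rw [getElem_pre, h2 i hi, List.getD_eq_getElem _ _ hi]
      subst hu
      have htake : (S (k + 1)).1.take (Ln m0 k) = (S k).1 := by
        rw [← hZL (k + 1), take_pre _ _ _ (by rw [Ln]; omega), hZL]
      rw [htake] at h3
      by_contra hne
      obtain ⟨τ', t1, t2, t3, t4⟩ := two_ext hm hk (S k).2 (S (k + 1)).1
      have h5 := hnx3 (A k) (S k) τ' t2 t3 t4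
      rw [← hSs] at h5
      have h6 : encode τ' ≠ encode (S (k + 1)).1 := fun h => t1 (encode_injective h)
      have h7 := h3 τ' (mem_strs.2 (by rw [t2, hSl]; rfl))
      rcases h7 with h7 | h7
      · apply h7
        refine ⟨t3, ?_⟩
        unfold ltb
        cases hb : b with
        | false =>
          have hA : A k = true := by
            cases hA : A k with
            | false => rw [hA, hb] at hne; exact absurd rfl hne
            | true => rfl
          left
          exact ⟨rfl, lt_of_le_of_ne (h5.2 hA) h6⟩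
        | true =>
          have hA : A k = false := by
            cases hA : A k with
            | false => rfl
            | true => rw [hA, hb] at hne; exact absurd rfl hne
          right
          exact ⟨rfl, lt_of_le_of_ne (h5.1 hA) (Ne.symm h6)⟩
      · exact h7 t4
    · intro hA
      refine ⟨(S (k + 1)).1, ⟨hSl _, fun i hi => ?_⟩, ?_⟩
      · have h1 := hZ (k + 1)
        have h2 : (pre Z (S (k + 1)).1.length).getD i false = Z i := pre_getD _ _ _ _ hi
        rw [h1] at h2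
        exact h2.symm
      · intro z hz
        rw [mem_strs] at hz
        have htake : (S (k + 1)).1.take (Ln m0 k) = (S k).1 := by
          rw [← hZL (k + 1), take_pre _ _ _ (by rw [Ln]; omega), hZL]
        rw [htake]
        by_cases hE : Ext qE B z
        · left
          rintro ⟨h1, h2⟩
          have h5 := hnx3 (A k) (S k) z (by rw [hz, hSl]; rfl) h1 hE
          rw [← hSs, hA] at h5
          rcases h2 with ⟨h2, h3⟩ | ⟨h2, h3⟩
          · have := h5.1 h2; omega
          · have := h5.2 h2; omega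
        · right; exact hE

end Pool.Agent.H561R3.LR
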